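import Pool.Agent.Q8.FreeConst.Main

/-!
# Weitzenböck constants of the free Lie algebra of rank two (MP_d68c88_al)

`L^δ = U^{(1)}`: every constant of `δ` lies in the Lie subalgebra generated by `x`, the constants
`[f,g]` with `δ^{r-1} f = α g ≠ 0`, and the pseudodeterminants `[δA,B] - [A,δB]` that are
constants.
-/

noncomputable section

namespace Pool.Agent.Results.MP_d68c88_al.AllConstants

open Q8.FreeConst

variable {K : Type*} [Field K]

/-- Type 2: constants `[f, g]` for which there are `r ≥ 1` and `α` with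
`δ^(r-1) f = α g ≠ 0`. -/
def type2 (δ : LieDerivation K (F2 K) (F2 K)) : Set (F2 K) :=
  {u | δ u = 0 ∧ ∃ f g : F2 K, u = ⁅f, g⁆ ∧
    ∃ r : ℕ, 1 ≤ r ∧ ∃ α : K, (⇑δ)^[r - 1] f = α • g ∧ α • g ≠ 0}

/-- The pseudodeterminant `U^{(m,k)}_{A,B} = [δ^m A, δ^k B] - [δ^k A, δ^m B]`. -/
def pseudoDet (δ : LieDerivation K (F2 K) (F2 K)) (m k : ℕ) (A B : F2 K) : F2 K :=
  ⁅(⇑δ)^[m] A, (⇑δ)^[k] B⁆ - ⁅(⇑δ)^[k] A, (⇑δ)^[m] B⁆

/-- Type 3: the pseudodeterminants `U^{(1,0)}_{A,B}` of elements `A, B` of the set `H` that are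
constants. In the problem `H` is the set of Hall monomials. -/
def type3 (δ : LieDerivation K (F2 K) (F2 K)) (H : Set (F2 K)) : Set (F2 K) :=
  {u | δ u = 0 ∧ ∃ A ∈ H, ∃ B ∈ H, u = pseudoDet δ 1 0 A B}

/-- The Lie subalgebra `U^{(1)}` generated by `x` and the elements of types 2 and 3. -/
def U1 (δ : LieDerivation K (F2 K) (F2 K)) (H : Set (F2 K)) : LieSubalgebra K (F2 K) :=
  LieSubalgebra.lieSpan K (F2 K) ({x K} ∪ type2 δ ∪ type3 δ H)

lemma q_mem (δ : LieDerivation K (F2 K) (F2 K)) (H : Set (F2 K)) {f : F2 K}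
    (hf : δ (δ f) = 0) : ⁅f, δ f⁆ ∈ U1 δ H := by
  by_cases h0 : δ f = 0
  · rw [h0, lie_zero]; exact zero_mem _
  · apply LieSubalgebra.subset_lieSpan
    refine Or.inl (Or.inr ⟨?_, f, δ f, rfl, 2, by norm_num, 1, ?_, ?_⟩)
    · rw [LieDerivation.apply_lie_eq_add, hf, lie_zero, zero_add, lie_self]
    · rw [one_smul]; rfl
    · rw [one_smul]; exact h0

end Pool.Agent.Results.MP_d68c88_al.AllConstants

open Pool.Agent.Results.MP_d68c88_al.AllConstants Q8.FreeConst in
/-- **Q1 of MP_d68c88_al, affirmative.** For every field `K` of characteristic zero, the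
derivation `δ` of the free Lie algebra on `x, y` with `δ x = 0`, `δ y = x`, and any set `H` (in
particular the set of Hall monomials), an element `f` is a constant if and only if it lies in
`U^{(1)}`. -/
theorem Pool.Agent.Results.MP_d68c88_al.AllConstants.result {K : Type*} [Field K] [CharZero K]
    (δ : LieDerivation K (F2 K) (F2 K)) (hx : δ (x K) = 0) (hy : δ (y K) = x K)
    (H : Set (F2 K)) (f : F2 K) : δ f = 0 ↔ f ∈ U1 δ H := by
  constructor
  · intro hf
    obtain ⟨s, hs⟩ := sum_pr f
    rw [hs]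
    apply sum_mem
    intro m _
    have h1 : δ (pr m f) = 0 := by
      have h2 := pr_shift (δ : F2 K →ₗ[K] F2 K) 2 (fun j v hv => by
        rw [mem_Wt] at *
        have := (sl2Rel δ hx hy).he v
        change hh K (δ v) = δ (hh K v) + (2 : K) • δ v at this
        change hh K (δ v) = _ • δ v
        rw [this, hv, map_smul, ← add_smul]
        congr 1
        push_cast
        ring) m f
      change pr (m + 2) (δ f) = δ (pr m f) at h2
      rw [← h2, hf, map_zero]
    obtain ⟨r, a, ha, h⟩ := const_form δ hx hy (pr_mem m f) h1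
    rw [h]
    apply add_mem
    · exact (U1 δ H).smul_mem r (LieSubalgebra.subset_lieSpan (Or.inl (Or.inl rfl)))
    · have hya : δ (δ (y K + a)) = 0 := by rw [map_add, map_add, hy, hx, ha, add_zero]
      have hyy : δ (δ (y K)) = 0 := by rw [hy, hx]
      have e1 : ⁅x K, a⁆ - ⁅y K, δ a⁆ =
          ⁅y K, δ (y K)⁆ + ⁅a, δ a⁆ - ⁅y K + a, δ (y K + a)⁆ := by
        rw [map_add, hy, lie_add, add_lie, add_lie, ← lie_skew (x K) a]
        abel
      rw [e1]
      exact sub_mem (add_mem (q_mem δ H hyy) (q_mem δ H ha)) (q_mem δ H hya)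
  · intro hf
    let C : LieSubalgebra K (F2 K) :=
      { carrier := {u | δ u = 0}
        add_mem' := by
          intro u v hu hv
          change δ (u + v) = 0
          rw [map_add, show δ u = 0 from hu, show δ v = 0 from hv, add_zero]
        zero_mem' := map_zero δ
        smul_mem' := by
          intro c u hu
          change δ (c • u) = 0
          rw [map_smul, show δ u = 0 from hu, smul_zero]
        lie_mem' := by
          intro u v hu hv
          change δ ⁅u, v⁆ = 0
          rw [LieDerivation.apply_lie_eq_add, show δ u = 0 from hu, show δ v = 0 from hv,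
            lie_zero, zero_lie, add_zero] }
    have hle : U1 δ H ≤ C := by
      rw [U1, LieSubalgebra.lieSpan_le]
      rintro u ((hu | hu) | hu)
      · rw [Set.mem_singleton_iff.1 hu]; exact hx
      · exact hu.1
      · exact hu.1
    exact hle hf
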